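import Pool.Agent.H56.KAL.Stmts

/-!
# Conditional deficits
-/

set_option autoImplicit false

namespace Pool.KAL

open Finset Real
open Pool.Agent.H49.Ent Pool.Agent.H32.Dense Pool.STK Pool.KAF

namespace CDF

variable {Ω S V : Type} [Fintype Ω]

open Classical in
lemma Pr_eq (p : Ω → ℝ) (E : Set Ω) : Pr p E = ∑ ω, if ω ∈ E then p ω else 0 := by
  unfold Pr law
  refine Finset.sum_congr rfl fun ω _ => ?_
  by_cases h : ω ∈ E
  · rw [if_pos h, if_pos (by simpa using h)]
  · rw [if_neg h, if_neg (by simpa using h)]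

/-- The mean of the conditional probabilities. -/
lemma Ex_Pr {p : Ω → ℝ} (hp : ∀ ω, 0 ≤ p ω) (L : Ω → V) (A : Set Ω) :
    Ex p (fun ω => Pr (cond p L (L ω)) A) = Pr p A := by
  classical
  unfold Ex
  rw [sum_mul_eq_sum_image p L (fun z => Pr (cond p L z) A)]
  have h1 : ∀ z ∈ univ.image L, law p L z * Pr (cond p L z) A =
      ∑ ω, if L ω = z then (if ω ∈ A then p ω else 0) else 0 := by
    intro z _
    rw [Pr_eq, Finset.mul_sum]
    refine Finset.sum_congr rfl fun ω _ => ?_
    unfold Pool.Agent.H49.Ent.cond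
    by_cases hz : L ω = z
    · rw [if_pos hz, if_pos hz]
      by_cases hA : ω ∈ A
      · rw [if_pos hA, if_pos hA]
        rcases (hp ω).eq_or_lt with h0 | h0
        · rw [← h0]
          simp
        · have h2 : 0 < law p L z := by
            rw [← hz]
            exact law_pos hp L h0
          rw [mul_div_cancel₀ _ h2.ne']
      · rw [if_neg hA, if_neg hA, mul_zero]
    · rw [if_neg hz, if_neg hz]
      simp
  rw [Finset.sum_congr rfl h1, Finset.sum_comm, Pr_eq]
  refine Finset.sum_congr rfl fun ω _ => ?_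
  rw [Finset.sum_eq_single (L ω)]
  · rw [if_pos rfl]
  · intro z _ hz
    rw [if_neg (Ne.symm hz)]
  · intro h
    exact absurd (Finset.mem_image_of_mem L (Finset.mem_univ ω)) h

/-- The mean of the entropies of the conditional laws. -/
lemma Ex_H {p : Ω → ℝ} (hp : ∀ ω, 0 ≤ p ω) (T : Ω → S) (L : Ω → V) :
    Ex p (fun ω => H (cond p L (L ω)) T) = CH p T L := by
  classical
  rw [CH_eq_sum hp]
  unfold Ex
  rw [sum_mul_eq_sum_image p L (fun z => H (cond p L z) T)]

lemma markov {p : Ω → ℝ} (hp : ∀ ω, 0 ≤ p ω) (g : Ω → ℝ) (hg : ∀ ω, 0 < p ω → 0 ≤ g ω) (s : ℝ) :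
    Pr p {ω | s < g ω} * s ≤ Ex p g := by
  classical
  rw [Pr_eq]
  unfold Ex
  rw [Finset.sum_mul]
  refine Finset.sum_le_sum fun ω _ => ?_
  rcases (hp ω).eq_or_lt with h0 | h0
  · rw [← h0]
    simp
  · by_cases h : s < g ω
    · rw [if_pos (show ω ∈ {ω | s < g ω} from h)]
      exact mul_le_mul_of_nonneg_left h.le h0.le
    · rw [if_neg (show ω ∉ {ω | s < g ω} from h), zero_mul]
      exact mul_nonneg h0.le (hg ω h0)

lemma Pr_pos_mem {p : Ω → ℝ} {E : Set Ω} (h : 0 < Pr p E) :
    ∃ ω, ω ∈ E ∧ 0 < p ω := by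
  classical
  by_contra hcon
  push Not at hcon
  rw [Pr_eq] at h
  have : ∑ ω, (if ω ∈ E then p ω else 0) ≤ 0 := by
    refine Finset.sum_nonpos fun ω _ => ?_
    by_cases hE : ω ∈ E
    · rw [if_pos hE]
      exact hcon ω hE
    · rw [if_neg hE]
  linarith

end CDF

theorem cdf_thm : CDFStmt := by
  classical
  intro Ω S V _ p T L F A e β hp hF he hβ hA hH
  have h0 := hp.nonneg
  -- laws
  have hlaw : ∀ ω, 0 < p ω → ∑ v, cond p L (L ω) v = 1 := fun ω hω =>
    sum_cond p L (law_pos h0 L hω).ne'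
  set g : Ω → ℝ := fun ω => Real.log F.card - H (cond p L (L ω)) T with hg
  set f : Ω → ℝ := fun ω => Pr (cond p L (L ω)) A with hf
  have hg0 : ∀ ω, 0 < p ω → 0 ≤ g ω := by
    intro ω hω
    have := H_le_log_card (cond_nonneg h0 L (L ω)) (hlaw ω hω) T F (fun v _ => hF v)
    rw [hg]
    dsimp only
    linarith
  have hgE : Ex p g ≤ e := by
    have h1 : Ex p g = Real.log F.card - CH p T L := by
      rw [hg, Ex_sub, Ex_const hp.sum_one, CDF.Ex_H h0]
    rw [h1]
    linarith
  have hfE : Ex p f = Pr p A := CDF.Ex_Pr h0 L A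
  have hf1 : ∀ ω, 0 < p ω → f ω ≤ 1 := by
    intro ω hω
    have h1 : f ω = ∑ v, if v ∈ A then cond p L (L ω) v else 0 := CDF.Pr_eq _ _
    rw [h1, ← hlaw ω hω]
    refine Finset.sum_le_sum fun v _ => ?_
    by_cases hv : v ∈ A
    · rw [if_pos hv]
    · rw [if_neg hv]
      exact cond_nonneg h0 L (L ω) v
  -- many lines on which the event is frequent
  have hB : β / 2 ≤ Pr p {ω | β / 2 ≤ f ω} := by
    have h1 : Ex p f ≤ Pr p {ω | β / 2 ≤ f ω} + β / 2 := by
      rw [CDF.Pr_eq]
      have h2 : β / 2 = ∑ ω, p ω * (β / 2) := by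
        rw [← Finset.sum_mul, hp.sum_one, one_mul]
      unfold Ex
      conv_rhs => rw [h2]
      rw [← Finset.sum_add_distrib]
      refine Finset.sum_le_sum fun ω _ => ?_
      rcases (h0 ω).eq_or_lt with h3 | h3
      · rw [← h3]
        simp
      · rw [← h2]
        by_cases h4 : β / 2 ≤ f ω
        · rw [if_pos (show ω ∈ {ω | β / 2 ≤ f ω} from h4)]
          have := mul_le_mul_of_nonneg_left (hf1 ω h3) h3.le
          have h5 : 0 ≤ p ω * (β / 2) := by positivity
          linarith
        · rw [if_neg (show ω ∉ {ω | β / 2 ≤ f ω} from h4)]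
          push Not at h4
          have := mul_le_mul_of_nonneg_left h4.le h3.le
          linarith
    rw [hfE] at h1
    linarith
  -- few lines with a large deficit
  have hC : Pr p {ω | 4 * e / β < g ω} ≤ β / 4 := by
    rcases he.eq_or_lt with h1 | h1
    · by_contra hcon
      push Not at hcon
      have h2 : ∑ ω, p ω * g ω ≤ 0 := by
        have : Ex p g ≤ 0 := by
          rw [h1]
          exact hgE
        exact this
      obtain ⟨ω, hω, hpω⟩ := CDF.Pr_pos_mem (lt_trans (by positivity : (0 : ℝ) < β / 4) hcon)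
      have h3 : 0 < g ω := by
        have : 4 * e / β < g ω := hω
        rw [← h1] at this
        simpa using this
      have h4 : p ω * g ω ≤ ∑ v, p v * g v := by
        refine Finset.single_le_sum (f := fun v => p v * g v) (fun v _ => ?_) (Finset.mem_univ ω)
        rcases (h0 v).eq_or_lt with h5 | h5
        · rw [← h5, zero_mul]
        · exact mul_nonneg h5.le (hg0 v h5)
      have h5 : 0 < p ω * g ω := mul_pos hpω h3
      linarith
    · have h2 := CDF.markov h0 g hg0 (4 * e / β)
      have h3 : Pr p {ω | 4 * e / β < g ω} * (4 * e / β) ≤ e := h2.trans hgE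
      have h4 : Pr p {ω | 4 * e / β < g ω} ≤ e / (4 * e / β) := by
        rw [le_div_iff₀ (by positivity)]
        exact h3
      refine h4.trans (le_of_eq ?_)
      field_simp
  -- both
  have hsum : Pr p {ω | β / 2 ≤ f ω} ≤
      Pr p {ω | Real.log F.card - 4 * e / β ≤ H (cond p L (L ω)) T ∧
        β / 2 ≤ Pr (cond p L (L ω)) A} + Pr p {ω | 4 * e / β < g ω} := by
    rw [CDF.Pr_eq, CDF.Pr_eq, CDF.Pr_eq, ← Finset.sum_add_distrib]
    refine Finset.sum_le_sum fun ω _ => ?_
    by_cases h1 : β / 2 ≤ f ω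
    · rw [if_pos (show ω ∈ {ω | β / 2 ≤ f ω} from h1)]
      by_cases h2 : 4 * e / β < g ω
      · rw [if_pos (show ω ∈ {ω | 4 * e / β < g ω} from h2)]
        refine le_add_of_nonneg_left ?_
        split_ifs
        · exact h0 ω
        · exact le_rfl
      · have h3 : ω ∈ {ω | Real.log F.card - 4 * e / β ≤ H (cond p L (L ω)) T ∧
          β / 2 ≤ Pr (cond p L (L ω)) A} := by
          refine ⟨?_, h1⟩
          push Not at h2
          rw [hg] at h2
          dsimp only at h2
          linarith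
        rw [if_pos h3, if_neg (show ω ∉ {ω | 4 * e / β < g ω} from h2), add_zero]
    · rw [if_neg (show ω ∉ {ω | β / 2 ≤ f ω} from h1)]
      refine add_nonneg ?_ ?_
      · split_ifs
        · exact h0 ω
        · exact le_rfl
      · split_ifs
        · exact h0 ω
        · exact le_rfl
  linarith

end Pool.KAL
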