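import Pool.Agent.H56.KAL.Stmts

/-!
# Two conditionally independent copies of a label
-/

set_option autoImplicit false

namespace Pool.KAL

open Finset Real
open Pool.Agent.H49.Ent Pool.Agent.H32.Dense Pool.STK Pool.KAF

theorem cpy_thm : CPYStmt := by
  intro Ω A B V _ p l x z c hp hc
  have h0 := hp.nonneg
  set b : Ω → A × B := fun ω => (l ω, x ω) with hb
  set Q : Ω × Ω → ℝ := dbl p b with hQ
  have hQ0 : ∀ w, 0 ≤ Q w := dbl_nonneg h0
  have heq : ∀ w, 0 < Q w → l w.1 = l w.2 ∧ x w.1 = x w.2 := by
    intro w hw
    have h := dbl_eq h0 hw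
    simpa [hb] using h
  -- the information as a difference of entropies of the labels
  have hdiff : CH Q (fun w => l w.1) (fun w => x w.1) -
      CH Q (fun w => l w.1) (fun w => ((z w.1, z w.2), x w.1)) =
      CH Q (fun w => (z w.1, z w.2)) (fun w => x w.1) -
      CH Q (fun w => (z w.1, z w.2)) (fun w => (l w.1, x w.1)) := by
    have h1 := CH_chain hQ0 (fun w => l w.1) (fun w => (z w.1, z w.2)) (fun w => x w.1)
    have h2 := CH_chain hQ0 (fun w => (z w.1, z w.2)) (fun w => l w.1) (fun w => x w.1)
    have h3 : CH Q (fun w => (l w.1, (z w.1, z w.2))) (fun w => x w.1) =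
        CH Q (fun w => ((z w.1, z w.2), l w.1)) (fun w => x w.1) := by
      refine CH_congr hQ0 ?_ ?_ (fun _ _ _ _ h => h) (fun _ _ _ _ h => h)
      · intro w w' _ _ h
        simp only [Prod.mk.injEq] at h ⊢
        tauto
      · intro w w' _ _ h
        simp only [Prod.mk.injEq] at h ⊢
        tauto
    linarith
  -- the same for the single label
  have hone : CH p l x - CH p l (fun ω => (z ω, x ω)) = CH p z x - CH p z b := by
    have h1 := CH_chain h0 l z x
    have h2 := CH_chain h0 z l x
    have h3 : CH p (fun ω => (l ω, z ω)) x = CH p (fun ω => (z ω, l ω)) x := by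
      refine CH_congr h0 ?_ ?_ (fun _ _ _ _ h => h) (fun _ _ _ _ h => h)
      · intro w w' _ _ h
        simp only [Prod.mk.injEq] at h ⊢
        tauto
      · intro w w' _ _ h
        simp only [Prod.mk.injEq] at h ⊢
        tauto
    linarith
  -- upper bound
  have hup : CH Q (fun w => (z w.1, z w.2)) (fun w => x w.1) ≤ CH p z x + CH p z x := by
    refine (CH_subadd hQ0 (fun w => z w.1) (fun w => z w.2) (fun w => x w.1)).trans ?_
    have h1 : CH Q (fun w => z w.1) (fun w => x w.1) = CH p z x :=
      (dbl_fst h0).CH z x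
    have h2 : CH Q (fun w => z w.2) (fun w => x w.1) = CH p z x := by
      rw [← (dbl_snd (b := b) h0).CH z x]
      refine CH_congr hQ0 ?_ ?_ ?_ ?_
      · intro w w' _ _ h
        exact (Prod.ext_iff.mp h).1
      · intro w w' _ _ h
        exact (Prod.ext_iff.mp h).1
      · intro w w' hw hw' h
        change x w.2 = x w'.2
        rw [← (heq w hw).2, ← (heq w' hw').2]
        exact h
      · intro w w' hw hw' h
        change x w.1 = x w'.1
        rw [(heq w hw).2, (heq w' hw').2]
        exact h
    rw [h1, h2]
  -- conditional independence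
  have hlow : CH Q (fun w => (z w.1, z w.2)) (fun w => (l w.1, x w.1)) =
      CH p z b + CH p z b := by
    rw [CH_chain hQ0]
    have h1 : CH Q (fun w => z w.2) (fun w => (l w.1, x w.1)) = CH p z b := by
      rw [← (dbl_snd (b := b) h0).CH z b]
      refine CH_congr hQ0 ?_ ?_ ?_ ?_
      · intro w w' _ _ h
        exact (Prod.ext_iff.mp h).1
      · intro w w' _ _ h
        exact (Prod.ext_iff.mp h).1
      · intro w w' hw hw' h
        change b w.2 = b w'.2
        rw [← dbl_eq h0 hw, ← dbl_eq h0 hw']
        exact h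
      · intro w w' hw hw' h
        change b w.1 = b w'.1
        rw [dbl_eq h0 hw, dbl_eq h0 hw']
        exact h
    have h2 : CH Q (fun w => z w.1) (fun w => (z w.2, (l w.1, x w.1))) = CH p z b := by
      rw [← CH_dbl_1 (b := b) h0 z z]
      refine CH_congr hQ0 ?_ ?_ ?_ ?_
      · intro w w' _ _ h
        exact (Prod.ext_iff.mp h).1
      · intro w w' _ _ h
        exact (Prod.ext_iff.mp h).1
      · intro w w' _ _ h
        have h' := Prod.ext_iff.mp h
        exact Prod.ext h'.2 h'.1
      · intro w w' _ _ h
        have h' := Prod.ext_iff.mp h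
        exact Prod.ext h'.2 h'.1
    rw [h1, h2]
  rw [hdiff, hlow]
  linarith

end Pool.KAL
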