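import Pool.Agent.H97.KAL.CDF

/-!
# Homogeneous blocks: the energy of the conditional rates
-/

set_option autoImplicit false

namespace Pool.KAL

open Finset Real
open Pool.Agent.H49.Ent Pool.Agent.H32.Dense Pool.STK Pool.KAF

/-- The entropy of the next `k` steps of a chain of labels, given its present value. -/
noncomputable def hk {Ω σ : Type} [Fintype Ω] (p : Ω → ℝ) (V : ℕ → Ω → σ) (i k : ℕ) (ω : Ω) : ℝ :=
  H (cond p (V i) (V i ω)) (V (i + k))

/-- The rate of the next `k` steps, given the present value. -/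
noncomputable def rk {Ω σ : Type} [Fintype Ω] (p : Ω → ℝ) (V : ℕ → Ω → σ) (i k : ℕ) (ω : Ω) : ℝ :=
  hk p V i k ω / k

/-- **Homogeneous blocks.** `V` is a refining chain of labels with at most `L` nats per step. There
is a scale `m = R ^ s`, `s < S`, such that for most places `i < J` the rates of the `R` windows of
length `m` which follow `i` are close to the rate of the block of length `R m`. -/
def HBLStmt : Prop :=
  ∀ (Ω σ : Type) [Fintype Ω] (p : Ω → ℝ) (V : ℕ → Ω → σ) (L : ℝ) (R S J : ℕ), IsLaw p → 0 < R →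
    0 < S → (∀ i, Det p (V (i + 1)) (V i)) → (∀ i ω, 0 < p ω → hk p V i 1 ω ≤ L) →
    ∃ s < S, ∑ i ∈ range J, Ex p (fun ω => ∑ j ∈ range R,
      (rk p V (i + j * R ^ s) (R ^ s) ω - rk p V i (R ^ (s + 1)) ω) ^ 2) ≤
        R * (L ^ 2 * ((J : ℝ) / S + R ^ S))

/-- **Homogeneous unsaturated blocks.** If the chain is not full, then at some scale `m = R ^ s` a
positive proportion of the places `i` start a block of `R` windows of length `m`, all of which have
almost surely (given the present value) a rate within `ε L` of one number `≤ (1 - c / 2) L`. -/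
def HBNStmt : Prop :=
  ∀ c > 0, c ≤ 1 → ∀ ε > 0, ∀ R : ℕ, 0 < R → ∃ S J₀ : ℕ, ∀ (Ω σ : Type) [Fintype Ω] (p : Ω → ℝ)
    (V : ℕ → Ω → σ) (L : ℝ) (J : ℕ), IsLaw p → 0 < L → J₀ ≤ J →
    (∀ i, Det p (V (i + 1)) (V i)) → (∀ i ω, 0 < p ω → hk p V i 1 ω ≤ L) →
    CH p (V J) (V 0) ≤ (1 - c) * L * J →
    ∃ s < S, c / 4 * J ≤ ∑ i ∈ range J, Pr p {ω | rk p V i (R ^ (s + 1)) ω ≤ (1 - c / 2) * L ∧
      Pr (cond p (V i) (V i ω)) {ω' | ∃ j < R, ε * L <
        |rk p V (i + j * R ^ s) (R ^ s) ω' - rk p V i (R ^ (s + 1)) ω|} ≤ ε}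

namespace HBL

variable {Ω σ τ : Type} [Fintype Ω]

lemma det_add {p : Ω → ℝ} {V : ℕ → Ω → σ} (h : ∀ i, Det p (V (i + 1)) (V i)) (i k : ℕ) :
    Det p (V (i + k)) (V i) := by
  induction k with
  | zero => exact fun ω ω' _ _ h => h
  | succ k ih => exact fun ω ω' a b h' => ih ω ω' a b (h (i + k) ω ω' a b h')

/-- Conditioning twice. -/
lemma cond_cond {p : Ω → ℝ} (hp : ∀ ω, 0 ≤ p ω) {W : Ω → τ} {W' : Ω → σ} (h : Det p W' W)
    {w : τ} {ω : Ω} (hω : 0 < p ω) (hw : W ω = w) :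
    cond (cond p W w) W' (W' ω) = cond p W' (W' ω) := by
  classical
  have hl : 0 < law p W w := hw ▸ law_pos hp W hω
  have key : ∀ v, W' v = W' ω → cond p W w v = p v / law p W w := by
    intro v hv
    unfold Pool.Agent.H49.Ent.cond
    rcases (hp v).eq_or_lt with h0 | h0
    · rw [← h0, zero_div, ite_self]
    · rw [if_pos ((h v ω h0 hω hv).trans hw)]
  have hlaw : law (cond p W w) W' (W' ω) = law p W' (W' ω) / law p W w := by
    unfold law
    rw [Finset.sum_div]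
    refine Finset.sum_congr rfl fun v _ => ?_
    split_ifs with hv
    · rw [key v hv]
      rfl
    · rw [zero_div]
  funext v
  have e1 : cond (cond p W w) W' (W' ω) v =
      if W' v = W' ω then cond p W w v / law (cond p W w) W' (W' ω) else 0 := by
    conv_lhs => unfold Pool.Agent.H49.Ent.cond
    rfl
  have e2 : cond p W' (W' ω) v = if W' v = W' ω then p v / law p W' (W' ω) else 0 := rfl
  rw [e1, e2]
  by_cases hv : W' v = W' ω
  · rw [if_pos hv, if_pos hv, hlaw, key v hv, div_div_div_cancel_right₀ hl.ne']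
  · rw [if_neg hv, if_neg hv]

/-- The tower property. -/
lemma tower {p : Ω → ℝ} (hp : ∀ ω, 0 ≤ p ω) (W : Ω → τ) (G : τ → ℝ) (f : Ω → ℝ) :
    Ex p (fun ω => G (W ω) * Ex (cond p W (W ω)) f) = Ex p (fun ω => G (W ω) * f ω) := by
  classical
  unfold Ex
  rw [sum_mul_eq_sum_image p W (fun z => G z * ∑ v, cond p W z v * f v)]
  have h1 : ∀ z ∈ univ.image W, law p W z * (G z * ∑ v, cond p W z v * f v) =
      ∑ v, if W v = z then p v * (G z * f v) else 0 := by
    intro z _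
    rw [mul_left_comm, Finset.mul_sum, Finset.mul_sum]
    refine Finset.sum_congr rfl fun v _ => ?_
    unfold Pool.Agent.H49.Ent.cond
    by_cases hz : W v = z
    · rw [if_pos hz, if_pos hz]
      rcases (hp v).eq_or_lt with h0 | h0
      · rw [← h0]
        simp
      · have h2 : 0 < law p W z := hz ▸ law_pos hp W h0
        field_simp
    · rw [if_neg hz, if_neg hz]
      simp
  rw [Finset.sum_congr rfl h1, Finset.sum_comm]
  refine Finset.sum_congr rfl fun v _ => ?_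
  rw [Finset.sum_eq_single (W v)]
  · rw [if_pos rfl]
  · intro z _ hz
    rw [if_neg (Ne.symm hz)]
  · intro h
    exact absurd (Finset.mem_image_of_mem W (Finset.mem_univ v)) h

/-- The chain rule for the blocks. -/
lemma hk_add {p : Ω → ℝ} (hp : ∀ ω, 0 ≤ p ω) {V : ℕ → Ω → σ}
    (hV : ∀ i, Det p (V (i + 1)) (V i)) (i k l : ℕ) {ω : Ω} (hω : 0 < p ω) :
    hk p V i (k + l) ω = hk p V i k ω + Ex (cond p (V i) (V i ω)) (hk p V (i + k) l) := by
  have hq := cond_nonneg hp (V i) (V i ω)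
  have hdet : Det p (V (i + k + l)) (V (i + k)) := det_add hV (i + k) l
  have hdet' : Det (cond p (V i) (V i ω)) (V (i + k + l)) (V (i + k)) := by
    intro a b ha hb hab
    exact hdet a b ((cond_pos_iff hp _ _ a).1 ha).1 ((cond_pos_iff hp _ _ b).1 hb).1 hab
  have h1 : CH (cond p (V i) (V i ω)) (V (i + k + l)) (V (i + k)) =
      H (cond p (V i) (V i ω)) (V (i + k + l)) - H (cond p (V i) (V i ω)) (V (i + k)) := by
    unfold CH
    congr 1
    refine H_congr hq (fun a b ha hb h => Prod.ext h (hdet' a b ha hb h))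
      (fun a b _ _ h => (Prod.ext_iff.mp h).1)
  have h2 := CDF.Ex_H hq (V (i + k + l)) (V (i + k))
  have h3 : Ex (cond p (V i) (V i ω)) (fun v =>
      H (cond (cond p (V i) (V i ω)) (V (i + k)) (V (i + k) v)) (V (i + k + l))) =
      Ex (cond p (V i) (V i ω)) (hk p V (i + k) l) := by
    unfold Ex
    refine Finset.sum_congr rfl fun v _ => ?_
    rcases (hq v).eq_or_lt with h0 | h0
    · rw [← h0, zero_mul, zero_mul]
    · obtain ⟨hv, hvw⟩ := (cond_pos_iff hp _ _ v).1 h0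
      have h5 := cond_cond hp (det_add hV i k) hv hvw
      dsimp only
      rw [h5]
      rfl
  have h4 : hk p V i (k + l) ω = H (cond p (V i) (V i ω)) (V (i + k + l)) := by
    unfold hk
    rw [add_assoc]
  rw [h4]
  unfold hk at h3 ⊢
  rw [← h3, h2, h1]
  ring

lemma hk_nonneg {p : Ω → ℝ} (hp : ∀ ω, 0 ≤ p ω) (V : ℕ → Ω → σ) (i k : ℕ) {ω : Ω}
    (hω : 0 < p ω) : 0 ≤ hk p V i k ω :=
  H_nonneg (cond_nonneg hp _ _) (sum_cond p _ (law_pos hp _ hω).ne') _

lemma hk_zero {p : Ω → ℝ} (hp : ∀ ω, 0 ≤ p ω) (V : ℕ → Ω → σ) (i : ℕ) {ω : Ω}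
    (hω : 0 < p ω) : hk p V i 0 ω = 0 := by
  unfold hk
  have h1 := sum_cond p (V i) (law_pos hp (V i) hω).ne'
  have h2 : H (cond p (V i) (V i ω)) (V (i + 0)) =
      H (cond p (V i) (V i ω)) (fun _ => V i ω) := by
    refine H_congr (cond_nonneg hp _ _) ?_ ?_
    · intro a b ha hb _
      exact ((cond_pos_iff hp _ _ a).1 ha).2.trans ((cond_pos_iff hp _ _ b).1 hb).2.symm
    · intro a b _ _ _
      rfl
  rw [h2, H_const h1]

lemma hk_le {p : Ω → ℝ} (hp : ∀ ω, 0 ≤ p ω) {V : ℕ → Ω → σ}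
    (hV : ∀ i, Det p (V (i + 1)) (V i)) {L : ℝ} (hL : ∀ i ω, 0 < p ω → hk p V i 1 ω ≤ L)
    (i k : ℕ) {ω : Ω} (hω : 0 < p ω) : hk p V i k ω ≤ k * L := by
  induction k with
  | zero => rw [hk_zero hp V i hω]; simp
  | succ k ih =>
    rw [hk_add hp hV i k 1 hω]
    have h1 : Ex (cond p (V i) (V i ω)) (hk p V (i + k) 1) ≤
        Ex (cond p (V i) (V i ω)) (fun _ => L) :=
      Ex_mono (cond_nonneg hp _ _) fun v hv => hL (i + k) v ((cond_pos_iff hp _ _ v).1 hv).1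
    rw [Ex_const (sum_cond p _ (law_pos hp _ hω).ne')] at h1
    push_cast
    linarith only [ih, h1]

/-- A block of `R` windows. -/
lemma hk_mul {p : Ω → ℝ} (hp : ∀ ω, 0 ≤ p ω) {V : ℕ → Ω → σ}
    (hV : ∀ i, Det p (V (i + 1)) (V i)) (i m R : ℕ) {ω : Ω} (hω : 0 < p ω) :
    hk p V i (R * m) ω =
      Ex (cond p (V i) (V i ω)) (fun v => ∑ j ∈ range R, hk p V (i + j * m) m v) := by
  induction R with
  | zero =>
    rw [Nat.zero_mul, hk_zero hp V i hω]
    simp [Ex]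
  | succ R ih =>
    rw [Nat.succ_mul, hk_add hp hV i (R * m) m hω, ih, ← Ex_add]
    congr 1
    funext v
    rw [Finset.sum_range_succ]

lemma rk_nonneg {p : Ω → ℝ} (hp : ∀ ω, 0 ≤ p ω) (V : ℕ → Ω → σ) (i k : ℕ) {ω : Ω}
    (hω : 0 < p ω) : 0 ≤ rk p V i k ω :=
  div_nonneg (hk_nonneg hp V i k hω) (Nat.cast_nonneg k)

lemma rk_le {p : Ω → ℝ} (hp : ∀ ω, 0 ≤ p ω) {V : ℕ → Ω → σ}
    (hV : ∀ i, Det p (V (i + 1)) (V i)) {L : ℝ} (hL : ∀ i ω, 0 < p ω → hk p V i 1 ω ≤ L)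
    (i k : ℕ) (hk0 : 0 < k) {ω : Ω} (hω : 0 < p ω) : rk p V i k ω ≤ L := by
  unfold rk
  have hk' : (0 : ℝ) < k := by exact_mod_cast hk0
  rw [div_le_iff₀' hk']
  exact hk_le hp hV hL i k hω

/-- Pythagoras. -/
lemma pyth {p : Ω → ℝ} (hp : ∀ ω, 0 ≤ p ω) {V : ℕ → Ω → σ}
    (hV : ∀ i, Det p (V (i + 1)) (V i)) (i m R : ℕ) (hm : 0 < m) (hR : 0 < R) :
    Ex p (fun ω => ∑ j ∈ range R, (rk p V (i + j * m) m ω - rk p V i (R * m) ω) ^ 2) =
      (∑ j ∈ range R, Ex p (fun ω => rk p V (i + j * m) m ω ^ 2)) -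
        R * Ex p (fun ω => rk p V i (R * m) ω ^ 2) := by
  have hm' : (0 : ℝ) < m := by exact_mod_cast hm
  have hR' : (0 : ℝ) < R := by exact_mod_cast hR
  have h1 : Ex p (fun ω => rk p V i (R * m) ω * ∑ j ∈ range R, rk p V (i + j * m) m ω) =
      R * Ex p (fun ω => rk p V i (R * m) ω ^ 2) := by
    have h2 := tower hp (V i) (fun z => H (cond p (V i) z) (V (i + R * m)) / ((R * m : ℕ) : ℝ))
      (fun ω => ∑ j ∈ range R, rk p V (i + j * m) m ω)
    have h3 : Ex p (fun ω => rk p V i (R * m) ω * ∑ j ∈ range R, rk p V (i + j * m) m ω) =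
        Ex p (fun ω => (fun z => H (cond p (V i) z) (V (i + R * m)) / ((R * m : ℕ) : ℝ)) (V i ω) *
          ∑ j ∈ range R, rk p V (i + j * m) m ω) := rfl
    rw [h3, ← h2, ← Ex_smul]
    unfold Ex
    refine Finset.sum_congr rfl fun ω _ => ?_
    rcases (hp ω).eq_or_lt with h0 | h0
    · rw [← h0, zero_mul, zero_mul]
    · congr 1
      have h4 := hk_mul hp hV i m R h0
      have h5 : (∑ v, cond p (V i) (V i ω) v * ∑ j ∈ range R, rk p V (i + j * m) m v) =
          hk p V i (R * m) ω / m := by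
        rw [h4]
        unfold Ex rk
        rw [Finset.sum_div]
        refine Finset.sum_congr rfl fun v _ => ?_
        rw [← Finset.sum_div, mul_div_assoc]
      dsimp only
      rw [h5]
      show rk p V i (R * m) ω * (hk p V i (R * m) ω / m) = R * rk p V i (R * m) ω ^ 2
      unfold rk
      push_cast
      field_simp
  have h6 : ∀ ω, ∑ j ∈ range R, (rk p V (i + j * m) m ω - rk p V i (R * m) ω) ^ 2 =
      (∑ j ∈ range R, rk p V (i + j * m) m ω ^ 2) -
        2 * (rk p V i (R * m) ω * ∑ j ∈ range R, rk p V (i + j * m) m ω) +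
          R * rk p V i (R * m) ω ^ 2 := by
    intro ω
    have e1 : ∀ j ∈ range R, (rk p V (i + j * m) m ω - rk p V i (R * m) ω) ^ 2 =
        rk p V (i + j * m) m ω ^ 2 - 2 * (rk p V i (R * m) ω * rk p V (i + j * m) m ω) +
          rk p V i (R * m) ω ^ 2 := fun j _ => by ring
    rw [Finset.sum_congr rfl e1, Finset.sum_add_distrib, Finset.sum_sub_distrib,
      ← Finset.mul_sum, ← Finset.mul_sum, Finset.sum_const, Finset.card_range, nsmul_eq_mul]
  have h7 : Ex p (fun ω => ∑ j ∈ range R, rk p V (i + j * m) m ω ^ 2) =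
      ∑ j ∈ range R, Ex p (fun ω => rk p V (i + j * m) m ω ^ 2) := by
    unfold Ex
    rw [Finset.sum_comm]
    refine Finset.sum_congr rfl fun ω _ => ?_
    rw [Finset.mul_sum]
  simp_rw [h6]
  rw [Ex_add (f := fun ω => (∑ j ∈ range R, rk p V (i + j * m) m ω ^ 2) -
        2 * (rk p V i (R * m) ω * ∑ j ∈ range R, rk p V (i + j * m) m ω)),
    Ex_sub, Ex_smul, Ex_smul, h1, h7]
  ring

lemma shift_le {φ : ℕ → ℝ} {B : ℝ} (h0 : ∀ i, 0 ≤ φ i) (h1 : ∀ i, φ i ≤ B) (J a : ℕ) :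
    ∑ i ∈ range J, φ (i + a) ≤ ∑ i ∈ range J, φ i + a * B := by
  have h2 : ∑ i ∈ range J, φ (i + a) ≤ ∑ i ∈ range (a + J), φ i := by
    rw [Finset.sum_range_add]
    have h3 : ∑ x ∈ range J, φ (a + x) = ∑ i ∈ range J, φ (i + a) :=
      Finset.sum_congr rfl fun i _ => by rw [add_comm]
    rw [h3]
    have := Finset.sum_nonneg (fun i (_ : i ∈ range a) => h0 i)
    linarith only [this]
  rw [add_comm a J, Finset.sum_range_add] at h2
  have h4 : ∑ x ∈ range a, φ (J + x) ≤ ∑ x ∈ range a, B := Finset.sum_le_sum fun i _ => h1 _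
  rw [Finset.sum_const, Finset.card_range, nsmul_eq_mul] at h4
  linarith only [h2, h4]

/-- The energy. -/
noncomputable def en (p : Ω → ℝ) (V : ℕ → Ω → σ) (J k : ℕ) : ℝ :=
  ∑ i ∈ range J, Ex p (fun ω => rk p V i k ω ^ 2)

lemma sq_bd {p : Ω → ℝ} (hp : IsLaw p) {V : ℕ → Ω → σ}
    (hV : ∀ i, Det p (V (i + 1)) (V i)) {L : ℝ} (hL : ∀ i ω, 0 < p ω → hk p V i 1 ω ≤ L)
    (i k : ℕ) (hk0 : 0 < k) :
    0 ≤ Ex p (fun ω => rk p V i k ω ^ 2) ∧ Ex p (fun ω => rk p V i k ω ^ 2) ≤ L ^ 2 := by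
  refine ⟨Ex_nonneg hp.nonneg fun ω _ => sq_nonneg _, ?_⟩
  have h1 : Ex p (fun ω => rk p V i k ω ^ 2) ≤ Ex p (fun _ => L ^ 2) :=
    Ex_mono hp.nonneg fun ω hω => by
      have h1 := rk_nonneg hp.nonneg V i k hω
      have h2 := rk_le hp.nonneg hV hL i k hk0 hω
      exact pow_le_pow_left₀ h1 h2 2
  rwa [Ex_const hp.sum_one] at h1

lemma en_step {p : Ω → ℝ} (hp : IsLaw p) {V : ℕ → Ω → σ}
    (hV : ∀ i, Det p (V (i + 1)) (V i)) {L : ℝ} (hL : ∀ i ω, 0 < p ω → hk p V i 1 ω ≤ L)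
    (J m R : ℕ) (hm : 0 < m) (hR : 0 < R) :
    ∑ i ∈ range J, Ex p (fun ω => ∑ j ∈ range R,
      (rk p V (i + j * m) m ω - rk p V i (R * m) ω) ^ 2) ≤
        R * (en p V J m - en p V J (R * m) + R * m * L ^ 2) := by
  have h1 : ∑ i ∈ range J, Ex p (fun ω => ∑ j ∈ range R,
      (rk p V (i + j * m) m ω - rk p V i (R * m) ω) ^ 2) =
      (∑ j ∈ range R, ∑ i ∈ range J, Ex p (fun ω => rk p V (i + j * m) m ω ^ 2)) -
        R * en p V J (R * m) := by
    rw [Finset.sum_comm, en, Finset.mul_sum, ← Finset.sum_sub_distrib]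
    exact Finset.sum_congr rfl fun i _ => pyth hp.nonneg hV i m R hm hR
  have h2 : ∀ j ∈ range R, ∑ i ∈ range J, Ex p (fun ω => rk p V (i + j * m) m ω ^ 2) ≤
      en p V J m + R * m * L ^ 2 := by
    intro j hj
    have h3 := shift_le (φ := fun i => Ex p (fun ω => rk p V i m ω ^ 2)) (B := L ^ 2)
      (fun i => (sq_bd hp hV hL i m hm).1) (fun i => (sq_bd hp hV hL i m hm).2) J (j * m)
    have h4 : ((j * m : ℕ) : ℝ) * L ^ 2 ≤ R * m * L ^ 2 := by
      refine mul_le_mul_of_nonneg_right ?_ (sq_nonneg L)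
      have h5 : j * m ≤ R * m := Nat.mul_le_mul_right m (mem_range.1 hj).le
      have h6 : ((j * m : ℕ) : ℝ) ≤ ((R * m : ℕ) : ℝ) := by exact_mod_cast h5
      push_cast at h6 ⊢
      exact h6
    have h5 : ∑ i ∈ range J, Ex p (fun ω => rk p V (i + j * m) m ω ^ 2) ≤
        en p V J m + ((j * m : ℕ) : ℝ) * L ^ 2 := h3
    linarith only [h4, h5]
  have h3 := Finset.sum_le_sum h2
  rw [Finset.sum_const, Finset.card_range, nsmul_eq_mul] at h3
  rw [h1]
  linarith only [h3]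

end HBL

open HBL

theorem hbl_thm : HBLStmt := by
  intro Ω σ _ p V L R S J hp hR hS hV hL
  have hRr : (1 : ℝ) ≤ R := by exact_mod_cast hR
  have hSr : (0 : ℝ) < S := by exact_mod_cast hS
  -- telescoping
  have key : ∀ s, ∑ i ∈ range J, Ex p (fun ω => ∑ j ∈ range R,
      (rk p V (i + j * R ^ s) (R ^ s) ω - rk p V i (R ^ (s + 1)) ω) ^ 2) ≤
        R * (en p V J (R ^ s) - en p V J (R ^ (s + 1)) + R ^ (s + 1) * L ^ 2) := by
    intro s
    have h := en_step hp hV hL J (R ^ s) R (by positivity) hR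
    rw [← pow_succ'] at h
    have e : (R : ℝ) * ((R ^ s : ℕ) : ℝ) = R ^ (s + 1) := by push_cast; ring
    rw [e] at h
    exact h
  by_contra hcon
  push Not at hcon
  have h1 : ∑ _s ∈ range S, (R : ℝ) * (L ^ 2 * ((J : ℝ) / S + R ^ S)) <
      ∑ s ∈ range S, R * (en p V J (R ^ s) - en p V J (R ^ (s + 1)) + R ^ (s + 1) * L ^ 2) := by
    refine Finset.sum_lt_sum_of_nonempty (by simpa using hS.ne') fun s hs => ?_
    exact (hcon s (mem_range.1 hs)).trans_le (key s)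
  rw [Finset.sum_const, Finset.card_range, nsmul_eq_mul, ← Finset.mul_sum,
    Finset.sum_add_distrib, Finset.sum_range_sub', pow_zero] at h1
  have h2 : ∑ s ∈ range S, (R : ℝ) ^ (s + 1) * L ^ 2 ≤ S * (R ^ S * L ^ 2) := by
    have h3 : ∑ s ∈ range S, (R : ℝ) ^ (s + 1) * L ^ 2 ≤ ∑ _s ∈ range S, (R : ℝ) ^ S * L ^ 2 := by
      refine Finset.sum_le_sum fun s hs => ?_
      refine mul_le_mul_of_nonneg_right ?_ (sq_nonneg L)
      exact pow_le_pow_right₀ hRr (mem_range.1 hs)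
    rwa [Finset.sum_const, Finset.card_range, nsmul_eq_mul] at h3
  have h4 : en p V J 1 ≤ J * L ^ 2 := by
    have h5 : en p V J 1 ≤ ∑ _i ∈ range J, L ^ 2 :=
      Finset.sum_le_sum fun i _ => (sq_bd hp hV hL i 1 one_pos).2
    rwa [Finset.sum_const, Finset.card_range, nsmul_eq_mul] at h5
  have h6 : 0 ≤ en p V J (R ^ S) :=
    Finset.sum_nonneg fun i _ => (sq_bd hp hV hL i (R ^ S) (by positivity)).1
  have h7 : (S : ℝ) * (R * (L ^ 2 * ((J : ℝ) / S + R ^ S))) =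
      R * (J * L ^ 2 + S * (R ^ S * L ^ 2)) := by
    field_simp
  rw [h7] at h1
  have h8 := lt_of_mul_lt_mul_left h1 (by positivity)
  linarith only [h2, h4, h6, h8]

namespace HBL

variable {Ω σ τ : Type} [Fintype Ω]

lemma Pr_inter {p : Ω → ℝ} (hp : IsLaw p) (P Q : Ω → Prop) :
    1 - Pr p {ω | ¬ P ω} - Pr p {ω | ¬ Q ω} ≤ Pr p {ω | P ω ∧ Q ω} := by
  classical
  rw [CDF.Pr_eq, CDF.Pr_eq, CDF.Pr_eq, ← hp.sum_one, sub_sub, sub_le_iff_le_add,
    ← Finset.sum_add_distrib, ← Finset.sum_add_distrib]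
  refine Finset.sum_le_sum fun ω _ => ?_
  have h0 := hp.nonneg ω
  simp only [Set.mem_setOf_eq]
  by_cases h1 : P ω <;> by_cases h2 : Q ω <;> simp [h1, h2, h0]

lemma mean_le {p : Ω → ℝ} (hp : IsLaw p) {V : ℕ → Ω → σ}
    (hV : ∀ i, Det p (V (i + 1)) (V i)) {L : ℝ} (hL : ∀ i ω, 0 < p ω → hk p V i 1 ω ≤ L)
    (J K : ℕ) (hK : 0 < K) :
    ∑ i ∈ range J, Ex p (rk p V i K) ≤ CH p (V J) (V 0) + K * L := by
  have h0 := hp.nonneg
  have hK' : (0 : ℝ) < K := by exact_mod_cast hK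
  have hE : ∀ i k, Ex p (hk p V i k) = ∑ j ∈ range k, Ex p (hk p V (i + j) 1) := by
    intro i k
    have h1 := tower h0 (V i) (fun _ => 1) (fun v => ∑ j ∈ range k, hk p V (i + j * 1) 1 v)
    have h2 : Ex p (hk p V i k) = Ex p (fun ω => (fun _ => (1 : ℝ)) (V i ω) *
        Ex (cond p (V i) (V i ω)) (fun v => ∑ j ∈ range k, hk p V (i + j * 1) 1 v)) := by
      unfold Ex
      refine Finset.sum_congr rfl fun ω _ => ?_
      rcases (h0 ω).eq_or_lt with hω | hω
      · rw [← hω, zero_mul, zero_mul]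
      · have h3 := hk_mul h0 hV i 1 k hω
        rw [mul_one] at h3
        rw [h3]
        dsimp only
        rw [one_mul]
        rfl
    rw [h2, h1]
    unfold Ex
    rw [Finset.sum_comm]
    refine Finset.sum_congr rfl fun ω _ => ?_
    simp only [one_mul, mul_one]
    rw [Finset.mul_sum]
  have hCH : CH p (V J) (V 0) = ∑ i ∈ range J, Ex p (hk p V i 1) := by
    have h1 := hE 0 J
    have h2 : Ex p (hk p V 0 J) = CH p (V J) (V 0) := by
      have h3 := CDF.Ex_H h0 (V J) (V 0)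
      rw [← h3]
      unfold hk
      rw [Nat.zero_add]
    rw [← h2, h1]
    exact Finset.sum_congr rfl fun i _ => by rw [Nat.zero_add]
  have hb0 : ∀ i, 0 ≤ Ex p (hk p V i 1) := fun i =>
    Ex_nonneg h0 fun ω hω => hk_nonneg h0 V i 1 hω
  have hb1 : ∀ i, Ex p (hk p V i 1) ≤ L := fun i => by
    have := Ex_mono h0 (f := hk p V i 1) (g := fun _ => L) (fun ω hω => hL i ω hω)
    rwa [Ex_const hp.sum_one] at this
  have hL0 : 0 ≤ L := (hb0 0).trans (hb1 0)
  have h4 : ∀ i, Ex p (rk p V i K) = (∑ j ∈ range K, Ex p (hk p V (i + j) 1)) / K := by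
    intro i
    rw [← hE i K]
    unfold rk Ex
    rw [Finset.sum_div]
    exact Finset.sum_congr rfl fun ω _ => by rw [mul_div_assoc]
  simp_rw [h4]
  rw [← Finset.sum_div, Finset.sum_comm, div_le_iff₀ hK', hCH]
  have h5 : ∀ j ∈ range K, ∑ i ∈ range J, Ex p (hk p V (i + j) 1) ≤
      ∑ i ∈ range J, Ex p (hk p V i 1) + K * L := by
    intro j hj
    have h6 := shift_le (φ := fun i => Ex p (hk p V i 1)) hb0 hb1 J j
    have h7 : (j : ℝ) * L ≤ K * L := by
      refine mul_le_mul_of_nonneg_right ?_ hL0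
      exact_mod_cast (mem_range.1 hj).le
    linarith only [h6, h7]
  have h8 := Finset.sum_le_sum h5
  rw [Finset.sum_const, Finset.card_range, nsmul_eq_mul] at h8
  linarith only [h8]

/-- Most places are homogeneous. -/
lemma bad_le {p : Ω → ℝ} (hp : IsLaw p) (V : ℕ → Ω → σ) {L ε : ℝ} (hL : 0 < L) (hε : 0 < ε)
    (i m R K : ℕ) :
    Pr p {ω | ε < Pr (cond p (V i) (V i ω)) {ω' | ∃ j < R, ε * L <
        |rk p V (i + j * m) m ω' - rk p V i K ω|}} * (ε * (ε * L) ^ 2) ≤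
      Ex p (fun ω => ∑ j ∈ range R, (rk p V (i + j * m) m ω - rk p V i K ω) ^ 2) := by
  classical
  have h0 := hp.nonneg
  have h1 : Ex p (fun ω => Pr (cond p (V i) (V i ω)) {ω' | ∃ j < R, ε * L <
        |rk p V (i + j * m) m ω' - rk p V i K ω|}) * (ε * L) ^ 2 ≤
      Ex p (fun ω => ∑ j ∈ range R, (rk p V (i + j * m) m ω - rk p V i K ω) ^ 2) := by
    have h2 := tower h0 (V i) (fun _ => 1)
      (fun v => ∑ j ∈ range R, (rk p V (i + j * m) m v - rk p V i K v) ^ 2)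
    simp only [one_mul] at h2
    rw [← h2]
    unfold Ex
    rw [Finset.sum_mul]
    refine Finset.sum_le_sum fun ω _ => ?_
    rw [mul_assoc]
    refine mul_le_mul_of_nonneg_left ?_ (h0 ω)
    dsimp only
    rw [CDF.Pr_eq, Finset.sum_mul]
    refine Finset.sum_le_sum fun v _ => ?_
    rcases (cond_nonneg h0 (V i) (V i ω) v).eq_or_lt with hv | hv
    · rw [← hv]
      simp
    · have hvw := ((cond_pos_iff h0 _ _ v).1 hv).2
      have e : rk p V i K v = rk p V i K ω := by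
        unfold rk hk
        rw [hvw]
      rw [e]
      have hs : ∀ j ∈ range R, 0 ≤ (rk p V (i + j * m) m v - rk p V i K ω) ^ 2 :=
        fun j _ => sq_nonneg _
      by_cases hE : v ∈ {ω' | ∃ j < R, ε * L < |rk p V (i + j * m) m ω' - rk p V i K ω|}
      · rw [if_pos hE]
        refine mul_le_mul_of_nonneg_left ?_ hv.le
        obtain ⟨j, hj, hj2⟩ := hE
        have h3 : (ε * L) ^ 2 ≤ (rk p V (i + j * m) m v - rk p V i K ω) ^ 2 := by
          rw [← sq_abs (rk p V (i + j * m) m v - rk p V i K ω)]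
          exact pow_le_pow_left₀ (by positivity) hj2.le 2
        exact h3.trans (Finset.single_le_sum hs (mem_range.2 hj))
      · rw [if_neg hE, zero_mul]
        exact mul_nonneg hv.le (Finset.sum_nonneg hs)
  have h3 := CDF.markov h0 (fun ω => Pr (cond p (V i) (V i ω)) {ω' | ∃ j < R, ε * L <
        |rk p V (i + j * m) m ω' - rk p V i K ω|}) (fun ω _ => by
          rw [CDF.Pr_eq]
          refine Finset.sum_nonneg fun v _ => ?_
          split_ifs
          · exact cond_nonneg h0 _ _ v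
          · exact le_rfl) ε
  have h4 := mul_le_mul_of_nonneg_right h3 (sq_nonneg (ε * L))
  rw [← mul_assoc]
  exact h4.trans h1

end HBL

theorem hbn_thm : HBNStmt := by
  intro c hc hc1 ε hε R hR
  have hRr : (1 : ℝ) ≤ R := by exact_mod_cast hR
  obtain ⟨S, hS⟩ := exists_nat_ge (8 * R / (c * ε ^ 3))
  have hS0 : 0 < S := by
    have h1 : (0 : ℝ) < 8 * R / (c * ε ^ 3) := by positivity
    exact_mod_cast h1.trans_le hS
  have hSr : (0 : ℝ) < S := by exact_mod_cast hS0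
  obtain ⟨J₀, hJ₀⟩ := exists_nat_ge ((2 * R ^ S + R * R ^ S / ε ^ 3) / (c / 8))
  refine ⟨S, J₀, ?_⟩
  intro Ω σ _ p V L J hp hL0 hJ hV hL hCH
  obtain ⟨s, hs, hsum⟩ := hbl_thm Ω σ p V L R S J hp hR hS0 hV hL
  refine ⟨s, hs, ?_⟩
  have hJr : (J₀ : ℝ) ≤ J := by exact_mod_cast hJ
  have hJ1 : 2 * (R : ℝ) ^ S + R * R ^ S / ε ^ 3 ≤ c / 8 * J := by
    rw [← div_le_iff₀' (by positivity)]
    exact hJ₀.trans hJr
  have hJ0 : (0 : ℝ) ≤ J := Nat.cast_nonneg J
  have hK : R ^ (s + 1) ≤ R ^ S := Nat.pow_le_pow_right hR hs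
  have hKr : ((R ^ (s + 1) : ℕ) : ℝ) ≤ (R : ℝ) ^ S := by exact_mod_cast hK
  -- the two bad events
  have hb2 : (∑ i ∈ range J, Pr p {ω | ¬ Pr (cond p (V i) (V i ω)) {ω' | ∃ j < R, ε * L <
        |rk p V (i + j * R ^ s) (R ^ s) ω' - rk p V i (R ^ (s + 1)) ω|} ≤ ε}) ≤
      R * ((J : ℝ) / S + R ^ S) / ε ^ 3 := by
    rw [le_div_iff₀ (by positivity), Finset.sum_mul]
    have h1 : (∑ i ∈ range J, Pr p {ω | ¬ Pr (cond p (V i) (V i ω)) {ω' | ∃ j < R, ε * L <
        |rk p V (i + j * R ^ s) (R ^ s) ω' - rk p V i (R ^ (s + 1)) ω|} ≤ ε} * ε ^ 3) * L ^ 2 ≤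
        R * (L ^ 2 * ((J : ℝ) / S + R ^ S)) := by
      refine le_trans ?_ hsum
      rw [Finset.sum_mul]
      refine Finset.sum_le_sum fun i _ => ?_
      have h2 := bad_le hp V hL0 hε i (R ^ s) R (R ^ (s + 1))
      have e1 : ε * (ε * L) ^ 2 = ε ^ 3 * L ^ 2 := by ring
      rw [e1, ← mul_assoc] at h2
      simp only [not_le]
      exact h2
    have h3 : (R : ℝ) * (L ^ 2 * ((J : ℝ) / S + R ^ S)) = R * ((J : ℝ) / S + R ^ S) * L ^ 2 := by
      ring
    rw [h3] at h1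
    exact le_of_mul_le_mul_right h1 (by positivity)
  have hb1 : (∑ i ∈ range J, Pr p {ω | ¬ rk p V i (R ^ (s + 1)) ω ≤ (1 - c / 2) * L}) ≤
      (1 - c / 2) * J + 2 * R ^ S := by
    have h1 := mean_le hp hV hL J (R ^ (s + 1)) (by positivity)
    have h2 : (∑ i ∈ range J, Pr p {ω | ¬ rk p V i (R ^ (s + 1)) ω ≤ (1 - c / 2) * L}) *
        ((1 - c / 2) * L) ≤ ∑ i ∈ range J, Ex p (rk p V i (R ^ (s + 1))) := by
      rw [Finset.sum_mul]
      refine Finset.sum_le_sum fun i _ => ?_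
      simp only [not_le]
      exact CDF.markov hp.nonneg _ (fun ω hω => rk_nonneg hp.nonneg V i _ hω) _
    have h3 : ((R ^ (s + 1) : ℕ) : ℝ) * L ≤ R ^ S * L := mul_le_mul_of_nonneg_right hKr hL0.le
    have h4 : (∑ i ∈ range J, Pr p {ω | ¬ rk p V i (R ^ (s + 1)) ω ≤ (1 - c / 2) * L}) *
        ((1 - c / 2) * L) ≤ ((1 - c / 2) * J + 2 * R ^ S) * ((1 - c / 2) * L) := by
      have h5 : (1 - c) * L * J ≤ (1 - c / 2) ^ 2 * L * J := by
        have : 1 - c ≤ (1 - c / 2) ^ 2 := by nlinarith only [hc]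
        have h6 : 0 ≤ L * J := by positivity
        nlinarith only [this, h6]
      have h7 : (R : ℝ) ^ S * L ≤ 2 * R ^ S * ((1 - c / 2) * L) := by
        have h8 : 0 ≤ (R : ℝ) ^ S * L := by positivity
        nlinarith only [hc1, h8]
      linarith only [hCH, h1, h2, h3, h5, h7]
    exact le_of_mul_le_mul_right h4 (by nlinarith only [hL0, hc1])
  have hb3 : (∑ i ∈ range J, (1 - Pr p {ω | ¬ rk p V i (R ^ (s + 1)) ω ≤ (1 - c / 2) * L} -
      Pr p {ω | ¬ Pr (cond p (V i) (V i ω)) {ω' | ∃ j < R, ε * L <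
        |rk p V (i + j * R ^ s) (R ^ s) ω' - rk p V i (R ^ (s + 1)) ω|} ≤ ε})) ≤
      ∑ i ∈ range J, Pr p {ω | rk p V i (R ^ (s + 1)) ω ≤ (1 - c / 2) * L ∧
      Pr (cond p (V i) (V i ω)) {ω' | ∃ j < R, ε * L <
        |rk p V (i + j * R ^ s) (R ^ s) ω' - rk p V i (R ^ (s + 1)) ω|} ≤ ε} :=
    Finset.sum_le_sum fun i _ => Pr_inter hp _ _
  refine le_trans ?_ hb3
  rw [Finset.sum_sub_distrib, Finset.sum_sub_distrib, Finset.sum_const, Finset.card_range,
    nsmul_eq_mul, mul_one]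
  have h9 : (R : ℝ) * ((J : ℝ) / S + R ^ S) / ε ^ 3 = R / (S * ε ^ 3) * J + R * R ^ S / ε ^ 3 := by
    field_simp
  have h10 : (R : ℝ) / (S * ε ^ 3) ≤ c / 8 := by
    rw [div_le_iff₀ (by positivity)] at hS ⊢
    linarith only [hS]
  have h11 := mul_le_mul_of_nonneg_right h10 hJ0
  rw [h9] at hb2
  linarith only [hJ1, hb2, hb1, h11]

end Pool.KAL
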