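import Pool.Agent.H97.KAL.HBL

/-!
# Rows from which all averages are small (Pliss)
-/

set_option autoImplicit false

namespace Pool.KAL

open Finset Real
open Pool.Agent.H49.Ent Pool.Agent.H32.Dense Pool.STK Pool.KAF

/-- **Pliss rows, pointwise.** `V` is a refining chain of labels with at most `L` nats per step.
For a proportion `(d - c) / (1 - c)` of the pairs (place `P`, sample), where `(1 - d) L` is the mean
rate of the chain, ALL the blocks `(P, P + i]` have a rate at most `(1 - c) L`, given the present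
value of `V P`. -/
def PLSStmt : Prop :=
  ∀ (Ω σ : Type) [Fintype Ω] (p : Ω → ℝ) (V : ℕ → Ω → σ) (L c : ℝ) (J : ℕ), IsLaw p → 0 ≤ L →
    c ≤ 1 → (∀ i, Det p (V (i + 1)) (V i)) → (∀ i ω, 0 < p ω → hk p V i 1 ω ≤ L) →
    (1 - c) * L * J - CH p (V J) (V 0) ≤
      (1 - c) * L * ∑ P ∈ range J, Pr p {ω | ∀ i, P + i ≤ J → hk p V P i ω ≤ (1 - c) * L * i}

open Classical in
/-- **Pliss rows, two sides, for a sequence.** If the mean is at most `1 - d`, then for at least
`(d - 2 c) n` rows `P` all averages over blocks which begin or end with the row `P` are at most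
`1 - c`. -/
def PL2Stmt : Prop :=
  ∀ (a : ℕ → ℝ) (n : ℕ) (c d : ℝ), 0 ≤ c → (∀ r, 0 ≤ a r ∧ a r ≤ 1) →
    ∑ r ∈ range n, a r ≤ (1 - d) * n →
    (d - 2 * c) * n ≤ (((range n).filter fun P =>
      (∀ i, P + i ≤ n → ∑ r ∈ Ico P (P + i), a r ≤ (1 - c) * i) ∧
      (∀ i ≤ P + 1, ∑ r ∈ Ico (P + 1 - i) (P + 1), a r ≤ (1 - c) * i)).card : ℝ)

namespace PLS

variable {Ω σ : Type} [Fintype Ω]

/-- The largest excess of the blocks which begin at `P`. -/
noncomputable def ex (p : Ω → ℝ) (V : ℕ → Ω → σ) (A : ℝ) (J P : ℕ) (ω : Ω) : ℝ :=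
  (range (J - P + 1)).sup' ⟨0, by simp⟩ (fun i => hk p V P i ω - A * i)

lemma le_ex (p : Ω → ℝ) (V : ℕ → Ω → σ) (A : ℝ) {J P i : ℕ} (h : P + i ≤ J) (ω : Ω) :
    hk p V P i ω - A * i ≤ ex p V A J P ω := by
  unfold ex
  exact Finset.le_sup' (fun i => hk p V P i ω - A * i) (mem_range.2 (by omega))

lemma ex_nonneg {p : Ω → ℝ} (hp : ∀ ω, 0 ≤ p ω) (V : ℕ → Ω → σ) (A : ℝ) {J P : ℕ} (h : P ≤ J)
    {ω : Ω} (hω : 0 < p ω) : 0 ≤ ex p V A J P ω := by
  have h1 := le_ex p V A (i := 0) (by omega : P + 0 ≤ J) ω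
  rw [HBL.hk_zero hp V P hω] at h1
  simpa using h1

lemma ex_last {p : Ω → ℝ} (hp : ∀ ω, 0 ≤ p ω) (V : ℕ → Ω → σ) (A : ℝ) (J : ℕ)
    {ω : Ω} (hω : 0 < p ω) : ex p V A J J ω = 0 := by
  refine le_antisymm ?_ (ex_nonneg hp V A le_rfl hω)
  unfold ex
  refine Finset.sup'_le _ _ fun i hi => ?_
  have h1 : i = 0 := by
    have := mem_range.1 hi
    omega
  subst h1
  rw [HBL.hk_zero hp V J hω]
  simp

/-- The recursion of the excess. -/
lemma ex_step {p : Ω → ℝ} (hp : IsLaw p) {V : ℕ → Ω → σ} (hV : ∀ i, Det p (V (i + 1)) (V i))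
    {A : ℝ} (hA : 0 ≤ A) {J P : ℕ} (hP : P < J) {ω : Ω} (hω : 0 < p ω) :
    ex p V A J P ω ≤ (hk p V P 1 ω - A) + Ex (cond p (V P) (V P ω)) (ex p V A J (P + 1)) +
      (open Classical in if ∀ i, P + i ≤ J → hk p V P i ω ≤ A * i then A else 0) := by
  classical
  have h0 := hp.nonneg
  have hq := cond_nonneg h0 (V P) (V P ω)
  have hq1 := sum_cond p (V P) (law_pos h0 (V P) hω).ne'
  have hE0 : 0 ≤ Ex (cond p (V P) (V P ω)) (ex p V A J (P + 1)) :=
    Ex_nonneg hq fun v hv => ex_nonneg h0 V A (by omega) ((cond_pos_iff h0 _ _ v).1 hv).1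
  have key : ∀ i, P + (i + 1) ≤ J → hk p V P (i + 1) ω - A * ((i + 1 : ℕ) : ℝ) ≤
      (hk p V P 1 ω - A) + Ex (cond p (V P) (V P ω)) (ex p V A J (P + 1)) := by
    intro i hi
    have h1 := HBL.hk_add h0 hV P 1 i hω
    rw [Nat.add_comm 1 i] at h1
    have h2 : Ex (cond p (V P) (V P ω)) (fun v => hk p V (P + 1) i v - A * i) ≤
        Ex (cond p (V P) (V P ω)) (ex p V A J (P + 1)) :=
      Ex_mono hq fun v _ => le_ex p V A (by omega) v
    rw [Ex_sub, Ex_const hq1] at h2
    have h3 : Ex (cond p (V P) (V P ω)) (fun v => hk p V (P + 1) i v) =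
      Ex (cond p (V P) (V P ω)) (hk p V (P + 1) i) := rfl
    rw [h1]
    push_cast
    linarith
  by_cases hg : ∀ i, P + i ≤ J → hk p V P i ω ≤ A * i
  · rw [if_pos hg]
    have h1 : ex p V A J P ω ≤ 0 := by
      unfold ex
      refine Finset.sup'_le _ _ fun i hi => ?_
      have h2 := hg i (by have := mem_range.1 hi; omega)
      linarith
    have h2 := HBL.hk_nonneg h0 V P 1 hω
    linarith
  · rw [if_neg hg, add_zero]
    push Not at hg
    obtain ⟨i₀, hi₀, hi₀'⟩ := hg
    have hpos : 0 < ex p V A J P ω := by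
      have := le_ex p V A hi₀ ω
      linarith
    obtain ⟨i, hi, hi'⟩ := Finset.exists_mem_eq_sup' (s := range (J - P + 1)) ⟨0, by simp⟩
      (fun i => hk p V P i ω - A * i)
    have hi2 : ex p V A J P ω = hk p V P i ω - A * i := hi'
    rcases i with _ | i
    · rw [hi2, HBL.hk_zero h0 V P hω] at hpos
      simp at hpos
    · rw [hi2]
      exact key i (by have := mem_range.1 hi; omega)

end PLS

open PLS

theorem pls_thm : PLSStmt := by
  classical
  intro Ω σ _ p V L c J hp hL hc hV hVL
  have h0 := hp.nonneg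
  obtain ⟨A, hA⟩ : ∃ A, A = (1 - c) * L := ⟨_, rfl⟩
  have hA0 : 0 ≤ A := by rw [hA]; exact mul_nonneg (by linarith) hL
  rw [← hA]
  have hstep : ∀ P ∈ range J, Ex p (ex p V A J P) - Ex p (ex p V A J (P + 1)) ≤
      Ex p (hk p V P 1) - A + A * Pr p {ω | ∀ i, P + i ≤ J → hk p V P i ω ≤ A * i} := by
    intro P hP
    have h1 : Ex p (ex p V A J P) ≤ Ex p (fun ω => (hk p V P 1 ω - A) +
        Ex (cond p (V P) (V P ω)) (ex p V A J (P + 1)) +
        (if ∀ i, P + i ≤ J → hk p V P i ω ≤ A * i then A else 0)) :=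
      Ex_mono h0 fun ω hω => ex_step hp hV hA0 (mem_range.1 hP) hω
    rw [Ex_add (f := fun ω => (hk p V P 1 ω - A) + Ex (cond p (V P) (V P ω)) (ex p V A J (P + 1))),
      Ex_add (f := fun ω => hk p V P 1 ω - A), Ex_sub, Ex_const hp.sum_one] at h1
    have h2 := HBL.tower h0 (V P) (fun _ => 1) (ex p V A J (P + 1))
    simp only [one_mul] at h2
    have h3 : Ex p (fun ω => if ∀ i, P + i ≤ J → hk p V P i ω ≤ A * i then A else 0) =
        A * Pr p {ω | ∀ i, P + i ≤ J → hk p V P i ω ≤ A * i} := by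
      rw [CDF.Pr_eq]
      unfold Ex
      rw [Finset.mul_sum]
      refine Finset.sum_congr rfl fun ω _ => ?_
      dsimp only
      by_cases h : ∀ i, P + i ≤ J → hk p V P i ω ≤ A * i
      · rw [if_pos h, if_pos (show ω ∈ {ω | ∀ i, P + i ≤ J → hk p V P i ω ≤ A * i} from h)]
        ring
      · rw [if_neg h, if_neg (show ω ∉ {ω | ∀ i, P + i ≤ J → hk p V P i ω ≤ A * i} from h)]
        ring
    have h4 : Ex p (fun ω => ex p V A J (P + 1) ω) = Ex p (ex p V A J (P + 1)) := rfl
    have h5 : Ex p (fun ω => hk p V P 1 ω) = Ex p (hk p V P 1) := rfl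
    rw [h2, h3] at h1
    linarith
  have hsum := Finset.sum_le_sum hstep
  rw [Finset.sum_range_sub', Finset.sum_add_distrib, Finset.sum_sub_distrib, Finset.sum_const,
    Finset.card_range, nsmul_eq_mul, ← Finset.mul_sum] at hsum
  have hE0 : 0 ≤ Ex p (ex p V A J 0) :=
    Ex_nonneg h0 fun ω hω => ex_nonneg h0 V A (Nat.zero_le J) hω
  have hEJ : Ex p (ex p V A J J) ≤ 0 := by
    have h1 : Ex p (ex p V A J J) ≤ Ex p (fun _ => 0) :=
      Ex_mono h0 fun ω hω => (ex_last h0 V A J hω).le
    rwa [Ex_const hp.sum_one] at h1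
  have hCH : ∑ P ∈ range J, Ex p (hk p V P 1) = CH p (V J) (V 0) := by
    have h3 := CDF.Ex_H h0 (V J) (V 0)
    rw [← h3]
    have h4 : Ex p (fun ω => H (cond p (V 0) (V 0 ω)) (V J)) = Ex p (hk p V 0 J) := by
      unfold hk
      rw [Nat.zero_add]
    rw [h4]
    have h1 := HBL.tower h0 (V 0) (fun _ => 1) (fun v => ∑ j ∈ range J, hk p V (0 + j * 1) 1 v)
    simp only [one_mul, Nat.zero_add, mul_one] at h1
    have h2 : Ex p (hk p V 0 J) = Ex p (fun ω => Ex (cond p (V 0) (V 0 ω))
        (fun v => ∑ j ∈ range J, hk p V j 1 v)) := by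
      unfold Ex
      refine Finset.sum_congr rfl fun ω _ => ?_
      rcases (h0 ω).eq_or_lt with hω | hω
      · rw [← hω, zero_mul, zero_mul]
      · have h3 := HBL.hk_mul h0 hV 0 1 J hω
        simp only [Nat.zero_add, mul_one] at h3
        rw [h3]
        rfl
    rw [h2, h1]
    unfold Ex
    rw [Finset.sum_comm]
    refine Finset.sum_congr rfl fun ω _ => ?_
    rw [Finset.mul_sum]
  rw [hCH] at hsum
  linarith

/-- The usual form: mean deficit `2 c`, a proportion `c` of the places. -/
theorem pls_two {Ω σ : Type} [Fintype Ω] {p : Ω → ℝ} (V : ℕ → Ω → σ) {L c : ℝ} {J : ℕ}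
    (hp : IsLaw p) (hL : 0 < L) (hc : 0 ≤ c) (hc1 : c < 1) (hV : ∀ i, Det p (V (i + 1)) (V i))
    (hVL : ∀ i ω, 0 < p ω → hk p V i 1 ω ≤ L) (h : CH p (V J) (V 0) ≤ (1 - 2 * c) * L * J) :
    c * J ≤ ∑ P ∈ range J, Pr p {ω | ∀ i, P + i ≤ J → hk p V P i ω ≤ (1 - c) * L * i} := by
  have h1 := pls_thm Ω σ p V L c J hp hL.le hc1.le hV hVL
  have hJ : (0 : ℝ) ≤ J := Nat.cast_nonneg J
  have h2 : (1 - c) * L * (c * J) ≤ (1 - c) * L *
      ∑ P ∈ range J, Pr p {ω | ∀ i, P + i ≤ J → hk p V P i ω ≤ (1 - c) * L * i} := by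
    have h3 : (1 - c) * L * (c * J) ≤ L * (c * J) := by
      have h4 : 0 ≤ L * (c * J) := by positivity
      nlinarith
    linarith
  exact le_of_mul_le_mul_left h2 (mul_pos (by linarith) hL)

namespace PLS

/-- The running maximum. -/
noncomputable def mx (S : ℕ → ℝ) : ℕ → ℝ
  | 0 => S 0
  | (n + 1) => max (mx S n) (S (n + 1))

/-- The minimum over the future, `k` steps before the end. -/
noncomputable def mn (S : ℕ → ℝ) (n : ℕ) : ℕ → ℝ
  | 0 => S n
  | (k + 1) => min (S (n - (k + 1))) (mn S n k)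

lemma le_mx (S : ℕ → ℝ) {j P : ℕ} (h : j ≤ P) : S j ≤ mx S P := by
  induction P with
  | zero => rw [Nat.le_zero.1 h]; exact le_rfl
  | succ P ih =>
    rcases Nat.lt_or_ge j (P + 1) with h1 | h1
    · exact (ih (by omega)).trans (le_max_left _ _)
    · rw [le_antisymm h h1]
      exact le_max_right _ _

lemma mn_le (S : ℕ → ℝ) {n k j : ℕ} (hk : k ≤ n) (h1 : n - k ≤ j) (h2 : j ≤ n) :
    mn S n k ≤ S j := by
  induction k with
  | zero =>
    have : j = n := by omega
    rw [this]
    exact le_rfl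
  | succ k ih =>
    rcases Nat.lt_or_ge (n - (k + 1)) j with h3 | h3
    · exact (min_le_right _ _).trans (ih (by omega) (by omega))
    · have : j = n - (k + 1) := by omega
      rw [this]
      exact min_le_left _ _

/-- The length of the levels which are crossed by one step only. -/
noncomputable def gain (S : ℕ → ℝ) (n P : ℕ) : ℝ := max (mn S n (n - (P + 1)) - mx S P) 0

lemma inv (S : ℕ → ℝ) (n P : ℕ) (hP : P ≤ n) :
    mx S P - S 0 ≤ ∑ j ∈ range P, gain S n j + ∑ j ∈ range P, max (S j - S (j + 1)) 0 +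
      (S P - mn S n (n - P)) := by
  induction P with
  | zero =>
    have h1 := mn_le S (n := n) (k := n - 0) (j := 0) (by omega) (by omega) (by omega)
    simp only [mx, Finset.range_zero, Finset.sum_empty]
    linarith
  | succ P ih =>
    have ih' := ih (by omega)
    rw [Finset.sum_range_succ, Finset.sum_range_succ]
    have e1 : n - P = (n - (P + 1)) + 1 := by omega
    have e2 : mn S n (n - P) = min (S P) (mn S n (n - (P + 1))) := by
      rw [e1]
      show min (S (n - (n - (P + 1) + 1))) (mn S n (n - (P + 1))) = _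
      have e3 : n - (n - (P + 1) + 1) = P := by omega
      rw [e3]
    rw [e2] at ih'
    have h3 := mn_le S (n := n) (k := n - (P + 1)) (j := P + 1) (by omega) (by omega) (by omega)
    have h4 : mx S (P + 1) = max (mx S P) (S (P + 1)) := rfl
    have h5 := le_mx S (le_refl P)
    have h6 : gain S n P = max (mn S n (n - (P + 1)) - mx S P) 0 := rfl
    rw [h4, h6]
    set M := mx S P with hM
    set m' := mn S n (n - (P + 1)) with hm'
    rcases le_total (S (P + 1)) (S P) with h7 | h7
    · rw [max_eq_left (by linarith : (0 : ℝ) ≤ S P - S (P + 1)), max_eq_left (h7.trans h5)]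
      rw [min_eq_right (h3.trans h7)] at ih'
      have := le_max_right (m' - M) 0
      linarith
    · rw [max_eq_right (by linarith : S P - S (P + 1) ≤ 0)]
      rcases le_total m' (S P) with h8 | h8
      · rw [min_eq_right h8] at ih'
        have h9 := le_max_right (m' - M) 0
        rcases le_total M (S (P + 1)) with h10 | h10
        · rw [max_eq_right h10]
          linarith
        · rw [max_eq_left h10]
          linarith
      · rw [min_eq_left h8] at ih'
        rcases le_total M (S (P + 1)) with h10 | h10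
        · rw [max_eq_right h10]
          have h9 := le_max_left (m' - M) 0
          linarith
        · rw [max_eq_left h10]
          have h9 := le_max_right (m' - M) 0
          linarith

end PLS

theorem pl2_thm : PL2Stmt := by
  classical
  intro a n c d hc ha hsum
  obtain ⟨S, hS⟩ : ∃ S : ℕ → ℝ, S = fun k => (1 - c) * k - ∑ r ∈ range k, a r := ⟨_, rfl⟩
  have hdiff : ∀ i j, i ≤ j → S j - S i = (1 - c) * ((j - i : ℕ) : ℝ) - ∑ r ∈ Ico i j, a r := by
    intro i j hij
    rw [hS]
    dsimp only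
    rw [Finset.sum_Ico_eq_sub _ hij, Nat.cast_sub hij]
    ring
  have hstep : ∀ j, S (j + 1) - S j = (1 - c) - a j := by
    intro j
    rw [hS]
    dsimp only
    rw [Finset.sum_range_succ]
    push_cast
    ring
  have h1 := PLS.inv S n n le_rfl
  have hD : ∑ j ∈ range n, max (S j - S (j + 1)) 0 ≤ n * c := by
    have h2 : ∑ j ∈ range n, max (S j - S (j + 1)) 0 ≤ ∑ _j ∈ range n, c := by
      refine Finset.sum_le_sum fun j _ => max_le ?_ hc
      have := hstep j
      have := (ha j).2
      linarith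
    rwa [Finset.sum_const, Finset.card_range, nsmul_eq_mul] at h2
  have hSn : (d - c) * n ≤ PLS.mx S n - S 0 := by
    have h2 := PLS.le_mx S (le_refl n)
    have h3 := hdiff 0 n (Nat.zero_le n)
    have h4 : ∑ r ∈ Ico 0 n, a r = ∑ r ∈ range n, a r := by rw [Finset.range_eq_Ico]
    rw [h4, Nat.sub_zero] at h3
    linarith
  have h5 : S n - PLS.mn S n (n - n) = 0 := by
    rw [Nat.sub_self]
    show S n - S n = 0
    ring
  set G := (range n).filter fun P =>
      (∀ i, P + i ≤ n → ∑ r ∈ Ico P (P + i), a r ≤ (1 - c) * i) ∧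
      (∀ i ≤ P + 1, ∑ r ∈ Ico (P + 1 - i) (P + 1), a r ≤ (1 - c) * i) with hG
  have hgain : ∑ j ∈ range n, PLS.gain S n j ≤ (G.card : ℝ) := by
    have h6 : ∑ j ∈ range n, PLS.gain S n j ≤ ∑ j ∈ range n, if j ∈ G then (1 : ℝ) else 0 := by
      refine Finset.sum_le_sum fun P hP => ?_
      have hPn := mem_range.1 hP
      have h7 := PLS.mn_le S (n := n) (k := n - (P + 1)) (j := P + 1) (by omega) (by omega)
        (by omega)
      have h8 := PLS.le_mx S (le_refl P)
      unfold PLS.gain
      rcases le_or_gt (PLS.mn S n (n - (P + 1)) - PLS.mx S P) 0 with h9 | h9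
      · rw [max_eq_right h9]
        split_ifs <;> norm_num
      · have hmem : P ∈ G := by
          rw [hG, Finset.mem_filter]
          refine ⟨hP, fun i hi => ?_, fun i hi => ?_⟩
          · rcases Nat.eq_zero_or_pos i with h0 | h0
            · subst h0
              simp
            · have h10 := PLS.mn_le S (n := n) (k := n - (P + 1)) (j := P + i) (by omega)
                (by omega) hi
              have h11 := hdiff P (P + i) (by omega)
              have e : ((P + i - P : ℕ) : ℝ) = i := by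
                rw [Nat.add_sub_cancel_left]
              rw [e] at h11
              linarith
          · rcases Nat.eq_zero_or_pos i with h0 | h0
            · subst h0
              simp
            · have h10 := PLS.le_mx S (j := P + 1 - i) (P := P) (by omega)
              have h11 := hdiff (P + 1 - i) (P + 1) (by omega)
              have e : ((P + 1 - (P + 1 - i) : ℕ) : ℝ) = i := by
                congr 1
                omega
              rw [e] at h11
              linarith
        rw [if_pos hmem]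
        refine max_le ?_ zero_le_one
        have h10 := hstep P
        have h11 := (ha P).1
        linarith
    refine h6.trans (le_of_eq ?_)
    rw [Finset.sum_ite_mem, Finset.sum_const, nsmul_eq_mul, mul_one]
    congr 2
    exact Finset.inter_eq_right.2 (Finset.filter_subset _ _)
  linarith

end Pool.KAL
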